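import Pool.Agent.Run7.h115.HK.N5

/-!
# The assembly
-/

set_option linter.style.haveILetI false

open MeasureTheory Filter Topology Set Metric
open scoped ENNReal
open Pool.Agent.N288.MM

namespace Run7.h115.HK

noncomputable section

/-- the pmGH convergence `(ℝ, w_N dx) → (ℝ, (3/2) dx)` -/
def conv {w : ℕ → ℝ → ℝ} (hw : Osc w) (h2 : S_W2) :
    PMGH (fun N => line (w N) (hw.wt N)) (line wI wI_weight) (fun _ => (0 : ℝ)) (0 : ℝ) where
  Z := ℝ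
  ι := fun _ x => x
  κ := fun x => x
  iso_ι := fun _ => isometry_id
  iso_κ := isometry_id
  base := tendsto_const_nhds
  haus₁ := fun R ε _ hε => Eventually.of_forall fun i y _ => ⟨y, by
    show dist (y : ℝ) y < ε
    rw [dist_self]; exact hε⟩
  haus₂ := fun R ε _ hε => Eventually.of_forall fun i y _ => ⟨y, by
    show dist (y : ℝ) y < ε
    rw [dist_self]; exact hε⟩
  weak := fun ψ hψ => by
    show Tendsto (fun N => ∫ x, ψ x ∂(mu (w N))) atTop (𝓝 (∫ x, ψ x ∂(mu wI)))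
    rw [wI_int]
    refine (h2 w hw ψ (cbs_integrable hψ)).congr fun N => ?_
    rw [int_mu (hw.wt N)]
    refine integral_congr_ae (Eventually.of_forall fun x => ?_)
    show ψ x * w N x = w N x * ψ x
    ring

lemma FlowW.congr {w f : ℝ → ℝ} {u u' : ℝ → ℝ → ℝ} (h : FlowW w f u)
    (he : ∀ t, 0 < t → u' t = u t) : FlowW w f u' := by
  refine ⟨fun t ht => by rw [he t ht]; exact h.mem t ht, ?_, fun t ht => ?_⟩
  · refine h.init.congr' ?_
    filter_upwards [self_mem_nhdsWithin] with t ht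
    rw [he t ht]
  · obtain ⟨v, hv, hl, hφ⟩ := h.deriv t ht
    refine ⟨v, hv, hl.congr' ?_, fun φ h1 h2 => by rw [he t ht]; exact hφ φ h1 h2⟩
    have h1 : ∀ᶠ s in 𝓝[≠] (0 : ℝ), 0 < t + s := by
      refine nhdsWithin_le_nhds ?_
      have : Tendsto (fun s : ℝ => t + s) (𝓝 0) (𝓝 (t + 0)) :=
        (continuous_const.add continuous_id).tendsto 0
      rw [add_zero] at this
      exact this.eventually (lt_mem_nhds ht)
    filter_upwards [h1] with s hs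
    rw [he t ht, he (t + s) hs]

/-- the heat kernels of the weighted lines exist -/
theorem ex_ker (hA2 : S_A2) (hV1 : S_V1) (hV2 : S_V2) (hV3 : S_V3) (hK1 : S_K1) (hK2 : S_K2)
    {w : ℝ → ℝ} (hw : Weight w) : ∃ p : ℝ → ℝ → ℝ → ℝ, KerW w p := by
  obtain ⟨V, hVc, hV⟩ := hV1 w hw
  haveI : CompleteSpace V := hVc.completeSpace_coe
  obtain ⟨J, hJ⟩ : ∃ J : V →L[ℂ] H2 w, J = (WithLp.fstL 2 ℂ (H2 w) (H2 w)).comp V.subtypeL :=
    ⟨_, rfl⟩
  have hJz : ∀ z : V, J z = (z : HH w).fst := fun z => by rw [hJ]; rfl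
  obtain ⟨P, P', v, hS⟩ := hA2 (H2 w) V J (fun z => by
    rw [hJz]
    exact WithLp.norm_fst_le (p := 2) (α := H2 w) (β := H2 w) (z : HH w)) (by
    have h1 := hV2 w hw V hV
    have h2 : (fun z : V => (z : HH w).fst) = J := by funext z; rw [hJz]
    rwa [h2] at h1)
  obtain ⟨e, he, he'⟩ := hV3 w hw V hV
  obtain ⟨p, p1, p2, p3⟩ := hK1 w hw V J hJz P P' v hS e he he'
  refine ⟨p, p1, p2, fun f hf => ?_⟩
  refine (hK2 w hw V hV J hJz P P' v hS e he' f hf).congr fun t ht => ?_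
  funext x
  exact p3 t ht f hf x

/-- the main theorem, from the pieces -/
theorem main (hW1 : S_W1) (hW2 : S_W2) (hC : S_C) (hN1 : S_N1) (hN2 : S_N2) (hN3 : S_N3)
    (hA2 : S_A2) (hV1 : S_V1) (hV2 : S_V2) (hV3 : S_V3) (hK1 : S_K1) (hK2 : S_K2) :
    ∃ (S : ℕ → Space) (T : Space) (s : ∀ i, (S i).X) (t : T.X) (P : PMGH S T s t)
      (cv cp ch : ℝ → ℝ) (Λ : ℝ),
      1 ≤ Λ ∧ (∀ R, 0 < R → 1 ≤ cv R ∧ 1 ≤ cp R ∧ 1 ≤ ch R) ∧
      (∀ i, IH (S i) ∧ PI (S i) cv cp Λ ∧ QL (S i) ch) ∧ (IH T ∧ PI T cv cp Λ ∧ QL T ch) ∧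
      (∀ i, ∃ p, IsHeatKernel (S i) p) ∧ (∃ q, IsHeatKernel T q) ∧
      ∀ (p : ∀ i, ℝ → (S i).X → (S i).X → ℝ) (q : ℝ → T.X → T.X → ℝ),
        (∀ i, IsHeatKernel (S i) (p i)) → IsHeatKernel T q → ¬ KernelsConverge P p q := by
  obtain ⟨w, hw⟩ := hW1
  refine ⟨_, _, _, _, conv hw hW2, fun _ => 4, fun _ => 3, fun _ => 128, 1, le_rfl,
    fun R _ => ⟨by norm_num, by norm_num, by norm_num⟩,
    fun i => ⟨line_IH _, line_PI _, QL_line _⟩, ⟨line_IH _, line_PI _, QL_line _⟩,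
    fun i => ?_, ?_, fun p q hp hq hconv => ?_⟩
  · obtain ⟨p, hp⟩ := ex_ker hA2 hV1 hV2 hV3 hK1 hK2 (hw.wt i)
    exact ⟨p, (ker_line (hw.wt i) p).2 hp⟩
  · obtain ⟨p, hp⟩ := ex_ker hA2 hV1 hV2 hV3 hK1 hK2 wI_weight
    exact ⟨p, (ker_line wI_weight p).2 hp⟩
  · refine t_N5 hN1 hN2 hN3 hC hw (p := p) (q := q) (fun N => (ker_line (hw.wt N) (p N)).1 (hp N))
      ((ker_line wI_weight q).1 hq) ?_
    intro t ht x y x₀ y₀ hx hy
    exact hconv t ht x y x₀ y₀ hx hy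

end

end Run7.h115.HK
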