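import Pool.Agent.Run7.h115.HK.N5a

/-!
# W1, W2: square waves
-/

open MeasureTheory Filter Topology Set
open scoped ENNReal
open Pool.Agent.N288.MM

namespace Run7.h115.HK

noncomputable section

/-- the distance to the nearest integer -/
def dz (y : ℝ) : ℝ := |y - round y|

lemma dz_lip : LipschitzWith 1 dz := by
  refine LipschitzWith.of_dist_le_mul fun x y => ?_
  rw [NNReal.coe_one, one_mul, Real.dist_eq, Real.dist_eq]
  have h1 : dz x ≤ dz y + |x - y| := by
    unfold dz
    have a1 := round_le x (round y)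
    have a2 : |x - round y| ≤ |x - y| + |y - round y| := abs_sub_le _ _ _
    linarith
  have h2 : dz y ≤ dz x + |x - y| := by
    unfold dz
    have a1 := round_le y (round x)
    have a2 : |y - round x| ≤ |y - x| + |x - round x| := abs_sub_le _ _ _
    rw [abs_sub_comm y x] at a2
    linarith
  rw [abs_le]
  constructor <;> linarith

lemma dz_bd (y : ℝ) : 0 ≤ dz y ∧ dz y ≤ 1 / 2 :=
  ⟨abs_nonneg _, abs_sub_round y⟩

lemma dz_der_left {y : ℝ} (h0 : 0 < Int.fract y) (h1 : Int.fract y < 1 / 2) :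
    HasDerivAt dz 1 y := by
  have e : dz =ᶠ[𝓝 y] fun z => z - ⌊y⌋ := by
    have ha : (⌊y⌋ : ℝ) < y := by
      have := Int.fract_add_floor y
      linarith
    have hb : y < ⌊y⌋ + 1 / 2 := by
      have := Int.fract_add_floor y
      linarith
    filter_upwards [Ioo_mem_nhds ha hb] with z hz
    have hf : ⌊z⌋ = ⌊y⌋ := by
      rw [Int.floor_eq_iff]
      exact ⟨hz.1.le, by linarith [hz.2]⟩
    unfold dz
    rw [abs_sub_round_eq_min, Int.fract, hf, min_eq_left]
    linarith [hz.2]
  refine HasDerivAt.congr_of_eventuallyEq ?_ e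
  simpa using (hasDerivAt_id y).sub_const (⌊y⌋ : ℝ)

lemma dz_der_right {y : ℝ} (h1 : 1 / 2 < Int.fract y) : HasDerivAt dz (-1) y := by
  have e : dz =ᶠ[𝓝 y] fun z => 1 + ⌊y⌋ - z := by
    have ha : (⌊y⌋ : ℝ) + 1 / 2 < y := by
      have := Int.fract_add_floor y
      linarith
    have hb : y < ⌊y⌋ + 1 := Int.lt_floor_add_one y
    filter_upwards [Ioo_mem_nhds ha hb] with z hz
    have hf : ⌊z⌋ = ⌊y⌋ := by
      rw [Int.floor_eq_iff]
      exact ⟨by linarith [hz.1], hz.2⟩
    unfold dz
    rw [abs_sub_round_eq_min, Int.fract, hf, min_eq_right]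
    · ring
    · linarith [hz.1]
  refine HasDerivAt.congr_of_eventuallyEq ?_ e
  simpa using (hasDerivAt_id y).const_sub (1 + (⌊y⌋ : ℝ))

/-- the square waves -/
def sw (N : ℕ) (x : ℝ) : ℝ := if Int.fract (((N : ℝ) + 1) * x) < 1 / 2 then 1 else 2

lemma sw_weight (N : ℕ) : Weight (sw N) where
  meas := by
    unfold sw
    exact Measurable.ite (measurableSet_lt (by fun_prop) measurable_const) measurable_const
      measurable_const
  one_le x := by
    unfold sw
    split_ifs <;> norm_num
  le_two x := by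
    unfold sw
    split_ifs <;> norm_num

/-- the primitive -/
def swp (N : ℕ) (x : ℝ) : ℝ := -(dz (((N : ℝ) + 1) * x)) / (2 * (N + 1))

lemma swp_lip (N : ℕ) : IsLip (swp N) := by
  refine ⟨1, LipschitzWith.of_dist_le_mul fun x y => ?_⟩
  have h1 := dz_lip.dist_le_mul (((N : ℝ) + 1) * x) (((N : ℝ) + 1) * y)
  rw [NNReal.coe_one, one_mul, Real.dist_eq, Real.dist_eq] at h1 ⊢
  have hN : (0 : ℝ) < N + 1 := by positivity
  unfold swp
  rw [← sub_div, abs_div, abs_of_pos (show (0 : ℝ) < 2 * (N + 1) by positivity),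
    div_le_iff₀ (by positivity)]
  have e1 : |-(dz (((N : ℝ) + 1) * x)) - -(dz (((N : ℝ) + 1) * y))| =
      |dz (((N : ℝ) + 1) * x) - dz (((N : ℝ) + 1) * y)| := by
    rw [neg_sub_neg, abs_sub_comm]
  have e2 : |((N : ℝ) + 1) * x - ((N : ℝ) + 1) * y| = ((N : ℝ) + 1) * |x - y| := by
    rw [← mul_sub, abs_mul, abs_of_pos hN]
  rw [e1]
  rw [e2] at h1
  nlinarith [abs_nonneg (x - y), mul_nonneg hN.le (abs_nonneg (x - y))]

lemma swp_deriv (N : ℕ) : ∀ᵐ x, deriv (swp N) x = sw N x - 3 / 2 := by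
  have hN : (0 : ℝ) < N + 1 := by positivity
  have hc : (range fun n : ℤ => (n : ℝ) / (2 * ((N : ℝ) + 1))).Countable := countable_range _
  filter_upwards [hc.ae_notMem volume] with x hx
  have hlin : HasDerivAt (fun x : ℝ => ((N : ℝ) + 1) * x) ((N : ℝ) + 1) x := by
    simpa using (hasDerivAt_id x).const_mul ((N : ℝ) + 1)
  have hfl := Int.fract_add_floor (((N : ℝ) + 1) * x)
  have n0 : Int.fract (((N : ℝ) + 1) * x) ≠ 0 := by
    intro h
    refine hx ⟨2 * ⌊((N : ℝ) + 1) * x⌋, ?_⟩
    rw [h, zero_add] at hfl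
    show ((2 * ⌊((N : ℝ) + 1) * x⌋ : ℤ) : ℝ) / (2 * ((N : ℝ) + 1)) = x
    push_cast
    rw [hfl]
    field_simp
  have n1 : Int.fract (((N : ℝ) + 1) * x) ≠ 1 / 2 := by
    intro h
    refine hx ⟨2 * ⌊((N : ℝ) + 1) * x⌋ + 1, ?_⟩
    rw [h] at hfl
    show ((2 * ⌊((N : ℝ) + 1) * x⌋ + 1 : ℤ) : ℝ) / (2 * ((N : ℝ) + 1)) = x
    push_cast
    have : (⌊((N : ℝ) + 1) * x⌋ : ℝ) = ((N : ℝ) + 1) * x - 1 / 2 := by linarith
    rw [this]
    field_simp
    ring
  have p0 : 0 < Int.fract (((N : ℝ) + 1) * x) := lt_of_le_of_ne (Int.fract_nonneg _) n0.symm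
  rcases lt_or_gt_of_ne n1 with h | h
  · have h1 := ((dz_der_left p0 h).comp x hlin).neg.div_const (2 * ((N : ℝ) + 1))
    have e : deriv (swp N) x = _ := h1.deriv
    rw [e]
    unfold sw
    rw [if_pos h]
    field_simp
    ring
  · have h1 := ((dz_der_right h).comp x hlin).neg.div_const (2 * ((N : ℝ) + 1))
    have e : deriv (swp N) x = _ := h1.deriv
    rw [e]
    unfold sw
    rw [if_neg (not_lt.2 h.le)]
    field_simp
    ring

/-- **W1** -/
theorem t_W1 : S_W1 := by
  refine ⟨sw, sw_weight, fun N => Eventually.of_forall fun x => ?_, fun N a b => ?_⟩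
  · unfold sw
    split_ifs <;> norm_num
  · have h1 : ∫ t in a..b, (sw N t - 3 / 2) = swp N b - swp N a := by
      rw [← (swp_lip N).ftc a b]
      refine intervalIntegral.integral_congr_ae ?_
      filter_upwards [swp_deriv N] with t ht _ using ht.symm
    rw [h1]
    have hN : (0 : ℝ) < N + 1 := by positivity
    unfold swp
    rw [← sub_div, abs_div, abs_of_pos (show (0 : ℝ) < 2 * (N + 1) by positivity),
      div_le_div_iff₀ (by positivity) hN]
    have b1 := dz_bd (((N : ℝ) + 1) * a)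
    have b2 := dz_bd (((N : ℝ) + 1) * b)
    have h2 : |-(dz (((N : ℝ) + 1) * b)) - -(dz (((N : ℝ) + 1) * a))| ≤ 1 := by
      rw [abs_le]
      constructor <;> linarith [b1.1, b1.2, b2.1, b2.2]
    nlinarith

section W2

variable {w : ℕ → ℝ → ℝ} (hw : Osc w)

include hw

lemma osc_abs (N : ℕ) (x : ℝ) : |w N x - 3 / 2| ≤ 1 / 2 := by
  have h1 := (hw.wt N).one_le x
  have h2 := (hw.wt N).le_two x
  rw [abs_le]
  constructor <;> linarith

lemma osc_smooth {g : ℝ → ℝ} (hg : ContDiff ℝ 1 g) (hc : HasCompactSupport g) :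
    Tendsto (fun N => ∫ x, g x * (w N x - 3 / 2)) atTop (𝓝 0) := by
  obtain ⟨r, hr⟩ := hc.isCompact.isBounded.subset_closedBall 0
  have h0 : ∀ y, r < |y| → g y = 0 := by
    intro y hy
    by_contra hne
    have := hr (subset_tsupport _ (Function.mem_support.2 hne))
    rw [mem_closedBall_zero_iff, Real.norm_eq_abs] at this
    linarith
  obtain ⟨s, hs⟩ : ∃ s : ℝ, s = max r 0 + 1 := ⟨_, rfl⟩
  have hs0 : 0 < s := by rw [hs]; positivity
  have hsr : r < s := by rw [hs]; linarith [le_max_left r 0]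
  obtain ⟨M, hM⟩ := hc.deriv.exists_bound_of_continuous (hg.continuous_deriv le_rfl)
  have hM0 : 0 ≤ M := (norm_nonneg _).trans (hM 0)
  refine squeeze_zero_norm (a := fun N : ℕ => (2 * s * M) * (1 / ((N : ℝ) + 1))) (fun N => ?_) ?_
  · -- the primitive
    have iw : ∀ a b : ℝ, IntervalIntegrable (fun t => w N t - 3 / 2) volume a b := fun a b =>
      (w_iint (hw.wt N) a b).sub (by simp)
    obtain ⟨W, hW⟩ : ∃ W : ℝ → ℝ, W = fun x => ∫ t in (0 : ℝ)..x, (w N t - 3 / 2) := ⟨_, rfl⟩
    have hWx : ∀ x, W x = ∫ t in (0 : ℝ)..x, (w N t - 3 / 2) := fun x => by rw [hW]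
    have hWl : LipschitzWith 1 W := by
      refine LipschitzWith.of_dist_le_mul fun x y => ?_
      rw [NNReal.coe_one, one_mul, Real.dist_eq, Real.dist_eq, hWx, hWx,
        intervalIntegral.integral_interval_sub_left (iw 0 x) (iw 0 y), ← Real.norm_eq_abs]
      refine (intervalIntegral.norm_integral_le_of_norm_le_const (C := 1) fun t _ => ?_).trans ?_
      · rw [Real.norm_eq_abs]
        linarith [osc_abs hw N t]
      · rw [one_mul]
    have hWb : ∀ x, |W x| ≤ 1 / ((N : ℝ) + 1) := fun x => by rw [hWx]; exact hw.osc N 0 x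
    have hli : LocallyIntegrable (fun t => w N t - 3 / 2) volume := by
      refine (locallyIntegrable_const (1 / 2 : ℝ)).mono ?_ (Eventually.of_forall fun x => ?_)
      · exact ((hw.wt N).meas.sub_const _).aestronglyMeasurable
      · rw [Real.norm_eq_abs, Real.norm_eq_abs, abs_of_pos (by norm_num : (0 : ℝ) < 1 / 2)]
        exact osc_abs hw N x
    have hWd : ∀ᵐ x, deriv W x = w N x - 3 / 2 := by
      filter_upwards [LocallyIntegrable.ae_hasDerivAt_integral hli] with x hx
      rw [hW]
      exact (hx 0).deriv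
    have hac1 : AbsolutelyContinuousOnInterval W (-s) s :=
      hWl.lipschitzOnWith.absolutelyContinuousOnInterval
    have hac2 : AbsolutelyContinuousOnInterval g (-s) s := by
      obtain ⟨K, hK⟩ := hg.lipschitzWith_of_hasCompactSupport hc one_ne_zero
      exact hK.lipschitzOnWith.absolutelyContinuousOnInterval
    have hparts := hac1.integral_deriv_mul_eq_sub hac2
    have gs : g s = 0 := h0 s (by rw [abs_of_pos hs0]; exact hsr)
    have gs' : g (-s) = 0 := h0 (-s) (by rw [abs_neg, abs_of_pos hs0]; exact hsr)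
    rw [gs, gs', mul_zero, mul_zero, sub_zero] at hparts
    have i1 : IntervalIntegrable (fun x => deriv W x * g x) volume (-s) s :=
      hac1.intervalIntegrable_deriv.mul_continuousOn hac2.continuousOn
    have i2 : IntervalIntegrable (fun x => W x * deriv g x) volume (-s) s :=
      hac2.intervalIntegrable_deriv.continuousOn_mul hac1.continuousOn
    rw [intervalIntegral.integral_add i1 i2] at hparts
    have e1 : ∫ x, g x * (w N x - 3 / 2) = ∫ x in (-s)..s, deriv W x * g x := by
      rw [intervalIntegral.integral_of_le (by linarith),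
        ← setIntegral_eq_integral_of_forall_compl_eq_zero (s := Ioc (-s) s)]
      · refine setIntegral_congr_ae measurableSet_Ioc ?_
        filter_upwards [hWd] with x hx _
        rw [hx, mul_comm]
      · intro x hx
        have : r < |x| := by
          by_contra hcon
          have h2 := abs_le.1 ((not_lt.1 hcon))
          exact hx ⟨by linarith [h2.1], by linarith [h2.2]⟩
        rw [h0 x this, zero_mul]
    have e2 : ∫ x, g x * (w N x - 3 / 2) = -∫ x in (-s)..s, W x * deriv g x := by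
      rw [e1]
      linarith
    rw [e2, norm_neg]
    have h3 := intervalIntegral.norm_integral_le_of_norm_le_const (a := -s) (b := s)
      (f := fun x => W x * deriv g x) (C := 1 / ((N : ℝ) + 1) * M) (fun x _ => by
        rw [norm_mul, Real.norm_eq_abs]
        exact mul_le_mul (hWb x) (hM x) (norm_nonneg _) (by positivity))
    refine h3.trans (le_of_eq ?_)
    rw [abs_of_pos (by linarith : 0 < s - -s)]
    ring
  · have := (tendsto_one_div_add_atTop_nhds_zero_nat (𝕜 := ℝ)).const_mul (2 * s * M)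
    simpa using this

end W2

/-- **W2** -/
theorem t_W2 : S_W2 := by
  intro w hw ψ hψ
  have imul : ∀ (N : ℕ) {f : ℝ → ℝ}, Integrable f → Integrable fun x => f x * (w N x - 3 / 2) := by
    intro N f hf
    refine hf.mul_bdd (c := 1 / 2) ((hw.wt N).meas.sub_const _).aestronglyMeasurable
      (Eventually.of_forall fun x => ?_)
    rw [Real.norm_eq_abs]
    exact osc_abs hw N x
  have key : Tendsto (fun N => ∫ x, ψ x * (w N x - 3 / 2)) atTop (𝓝 0) := by
    rw [Metric.tendsto_atTop]
    intro ε hε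
    obtain ⟨g, hg1, hg2, hg3⟩ := (memLp_one_iff_integrable.2 hψ).exist_eLpNorm_sub_le
      (by norm_num) le_rfl (half_pos hε)
    have hgi : Integrable g := hg2.continuous.integrable_of_hasCompactSupport hg1
    obtain ⟨n, hn⟩ := (Metric.tendsto_atTop.1
      (osc_smooth hw (hg2.of_le (by exact_mod_cast le_top)) hg1)) (ε / 2) (half_pos hε)
    refine ⟨n, fun N hN => ?_⟩
    have h1 := hn N hN
    rw [dist_zero_right] at h1 ⊢
    have h2 : ∫ x, ψ x * (w N x - 3 / 2) =
        (∫ x, (ψ x - g x) * (w N x - 3 / 2)) + ∫ x, g x * (w N x - 3 / 2) := by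
      have i1 : Integrable fun x => (ψ x - g x) * (w N x - 3 / 2) := imul N (hψ.sub hgi)
      rw [← integral_add i1 (imul N hgi)]
      refine integral_congr_ae (Eventually.of_forall fun x => ?_)
      show ψ x * (w N x - 3 / 2) = (ψ x - g x) * (w N x - 3 / 2) + g x * (w N x - 3 / 2)
      ring
    have h3 : ‖∫ x, (ψ x - g x) * (w N x - 3 / 2)‖ ≤ ε / 2 := by
      have h4 : ‖∫ x, (ψ x - g x) * (w N x - 3 / 2)‖ ≤ ∫ x, ‖(ψ - g) x‖ := by
        refine norm_integral_le_of_norm_le (hψ.sub hgi).norm (Eventually.of_forall fun x => ?_)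
        rw [norm_mul, Real.norm_eq_abs (w N x - 3 / 2)]
        have := osc_abs hw N x
        have h5 : ‖ψ x - g x‖ * |w N x - 3 / 2| ≤ ‖ψ x - g x‖ * 1 :=
          mul_le_mul_of_nonneg_left (by linarith) (norm_nonneg _)
        rw [mul_one] at h5
        exact h5
      refine h4.trans ?_
      rw [eLpNorm_one_eq_lintegral_enorm] at hg3
      rw [integral_norm_eq_lintegral_enorm (hψ.sub hgi).1]
      refine ENNReal.toReal_le_of_le_ofReal (half_pos hε).le hg3
    rw [h2]
    refine (norm_add_le _ _).trans_lt ?_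
    linarith
  have h5 := key.add_const (∫ x, ψ x * (3 / 2))
  rw [zero_add] at h5
  refine h5.congr fun N => ?_
  rw [← integral_add (imul N hψ) (hψ.mul_const _)]
  refine integral_congr_ae (Eventually.of_forall fun x => ?_)
  show ψ x * (w N x - 3 / 2) + ψ x * (3 / 2) = ψ x * w N x
  ring

end

end Run7.h115.HK
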