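import Pool.Agent.N288.MM.Defs

/-!
# The heat flow and the heat kernel of a metric measure space

Definitions for the problem `MP_a99579_gt`, Q2.
-/

open MeasureTheory Filter Topology Set
open scoped ENNReal
open Pool.Agent.N288.MM

namespace Run7.h115.HK

/-- `u` is the heat flow (the `L²(m)` gradient flow of the Cheeger energy) which starts at `f`: for
`t > 0` the function `u t` belongs to `L²(m)` and has finite Cheeger energy, the curve `t ↦ u t` is
differentiable in `L²(m)`, and its derivative is the Laplacian of `u t`, that is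
`∫ (∂_t u) φ dm = - ∫ ⟨∇ (u t), ∇ φ⟩ dm` for all `φ ∈ L²(m)` of finite Cheeger energy; and
`u t → f` in `L²(m)` as `t → 0`. -/
structure IsHeatFlow (S : Space) (f : S.X → ℝ) (u : ℝ → S.X → ℝ) : Prop where
  mem : ∀ t, 0 < t → MemLp (u t) 2 S.m ∧ Ch S (u t) < ∞
  init : Tendsto (fun t => eLpNorm (fun x => u t x - f x) 2 S.m) (𝓝[>] 0) (𝓝 0)
  deriv : ∀ t, 0 < t → ∃ v : S.X → ℝ, MemLp v 2 S.m ∧
    Tendsto (fun h : ℝ => eLpNorm (fun x => (u (t + h) x - u t x) / h - v x) 2 S.m) (𝓝[≠] 0)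
      (𝓝 0) ∧
    ∀ φ : S.X → ℝ, MemLp φ 2 S.m → Ch S φ < ∞ → ∫ x, v x * φ x ∂S.m = -pairing S (u t) φ

/-- `p` is the heat kernel: the continuous kernel which represents the heat flow,
`(P_t f)(x) = ∫ p(t, x, y) f(y) dm(y)` for `f ∈ L²(m)`. -/
structure IsHeatKernel (S : Space) (p : ℝ → S.X → S.X → ℝ) : Prop where
  cont : ContinuousOn (fun z : ℝ × S.X × S.X => p z.1 z.2.1 z.2.2) {z | 0 < z.1}
  mem : ∀ t, 0 < t → ∀ x, MemLp (p t x) 2 S.m
  flow : ∀ f : S.X → ℝ, MemLp f 2 S.m → IsHeatFlow S f fun t x => ∫ y, p t x y * f y ∂S.m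

variable {S : ℕ → Space} {T : Space} {s : ∀ i, (S i).X} {t : T.X}

/-- the heat kernels `p i` converge to `q`: `p_i(t, x_i, y_i) → q(t, x, y)` for all `t > 0` whenever
`x_i → x` and `y_i → y` in `Z` -/
def KernelsConverge (P : PMGH S T s t) (p : ∀ i, ℝ → (S i).X → (S i).X → ℝ)
    (q : ℝ → T.X → T.X → ℝ) : Prop :=
  ∀ t : ℝ, 0 < t → ∀ (x y : ∀ i, (S i).X) (x₀ y₀ : T.X),
    Tendsto (fun i => P.ι i (x i)) atTop (𝓝 (P.κ x₀)) →
    Tendsto (fun i => P.ι i (y i)) atTop (𝓝 (P.κ y₀)) →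
    Tendsto (fun i => p i t (x i) (y i)) atTop (𝓝 (q t x₀ y₀))

end Run7.h115.HK
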