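import Pool.Agent.N288.MM.Final
import Pool.Agent.Run7.h115.HK.Defs

/-!
# The heat kernels of weighted lines do not converge: interface

`MP_a99579_gt`, Q2. The spaces are the weighted lines `(ℝ, |·|, w N dx)`, `w N` a square wave with
the values `1`, `2` and the period `1 / (N + 1)`; they converge to `(ℝ, |·|, (3/2) dx)`. The heat
kernels would converge to the kernel of the homogenised form, with the conductivity `4/3` (harmonic
mean), so they do not converge to the heat kernel of `(ℝ, (3/2) dx)`.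

Part 1 (`W1`, `W2`, `C`, `N1`, `N2`, `N3`): the heat kernels do not converge.
Part 2 (`A1`, `A2`, `V1`, `V2`, `V3`, `K1`, `K2`): the heat kernels exist.
-/

open MeasureTheory Filter Topology Set
open scoped ENNReal
open Pool.Agent.N288.MM

namespace Run7.h115.HK

noncomputable section

/-! ### the weights -/

/-- the properties of the square waves -/
structure Osc (w : ℕ → ℝ → ℝ) : Prop where
  wt : ∀ N, Weight (w N)
  inv : ∀ N, ∀ᵐ x, (w N x)⁻¹ = (3 - w N x) / 2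
  osc : ∀ (N : ℕ) (a b : ℝ), |∫ t in a..b, (w N t - 3 / 2)| ≤ 1 / (N + 1)

/-- W1: for example `w N x = if Int.fract ((N + 1) * x) < 1 / 2 then 1 else 2`; the primitive of
`w N - 3 / 2` is `(|Int.fract ((N + 1) * x) - 1 / 2| - 1 / 2) / (2 * (N + 1))`, Lipschitz -/
def S_W1 : Prop := ∃ w : ℕ → ℝ → ℝ, Osc w

/-- W2 (Riemann-Lebesgue): for smooth compactly supported `ψ` by parts, then by density in `L¹` -/
def S_W2 : Prop := ∀ w : ℕ → ℝ → ℝ, Osc w → ∀ ψ : ℝ → ℝ, Integrable ψ →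
  Tendsto (fun N => ∫ x, ψ x * w N x) atTop (𝓝 (∫ x, ψ x * (3 / 2)))

/-- C: the limit of integrals (`h N → h₀` uniformly, by a compactness argument with the sequences;
then W2 for `h₀`, which is continuous and has compact support, and `Osc.inv`) -/
def S_C : Prop := ∀ w : ℕ → ℝ → ℝ, Osc w → ∀ (h : ℕ → ℝ → ℝ) (h₀ : ℝ → ℝ),
  (∀ N, Continuous (h N)) → Continuous h₀ →
  (∀ (x : ℕ → ℝ) (x₀ : ℝ), Tendsto x atTop (𝓝 x₀) →
    Tendsto (fun N => h N (x N)) atTop (𝓝 (h₀ x₀))) →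
  ∀ R : ℝ, (∀ N x, R < |x| → h N x = 0) →
  Tendsto (fun N => ∫ x, h N x * w N x) atTop (𝓝 (∫ x, h₀ x * (3 / 2))) ∧
  Tendsto (fun N => ∫ x, h N x * (w N x)⁻¹) atTop (𝓝 (∫ x, h₀ x * (3 / 4)))

/-! ### the heat flow on the weighted line -/

/-- the heat flow on the weighted line, with real arguments -/
structure FlowW (w : ℝ → ℝ) (f : ℝ → ℝ) (u : ℝ → ℝ → ℝ) : Prop where
  mem : ∀ t, 0 < t → MemLp (u t) 2 (mu w) ∧ Cw w (u t) < ∞
  init : Tendsto (fun t => eLpNorm (fun x => u t x - f x) 2 (mu w)) (𝓝[>] 0) (𝓝 0)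
  deriv : ∀ t, 0 < t → ∃ v : ℝ → ℝ, MemLp v 2 (mu w) ∧
    Tendsto (fun h : ℝ => eLpNorm (fun x => (u (t + h) x - u t x) / h - v x) 2 (mu w)) (𝓝[≠] 0)
      (𝓝 0) ∧
    ∀ φ : ℝ → ℝ, MemLp φ 2 (mu w) → Cw w φ < ∞ → ∫ x, v x * φ x ∂(mu w) = -pairW w (u t) φ

lemma flow_line {w : ℝ → ℝ} (hw : Weight w) (f : ℝ → ℝ) (u : ℝ → ℝ → ℝ) :
    IsHeatFlow (line w hw) f u ↔ FlowW w f u :=
  ⟨fun h => ⟨h.mem, h.init, h.deriv⟩, fun h => ⟨h.mem, h.init, h.deriv⟩⟩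

/-- the heat kernel of the weighted line, with real arguments -/
structure KerW (w : ℝ → ℝ) (p : ℝ → ℝ → ℝ → ℝ) : Prop where
  cont : ContinuousOn (fun z : ℝ × ℝ × ℝ => p z.1 z.2.1 z.2.2) {z | 0 < z.1}
  mem : ∀ t, 0 < t → ∀ x, MemLp (p t x) 2 (mu w)
  flow : ∀ f : ℝ → ℝ, MemLp f 2 (mu w) → FlowW w f fun t x => ∫ y, p t x y * f y ∂(mu w)

lemma ker_line {w : ℝ → ℝ} (hw : Weight w) (p : ℝ → ℝ → ℝ → ℝ) :
    IsHeatKernel (line w hw) p ↔ KerW w p :=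
  ⟨fun h => ⟨h.cont, h.mem, fun f hf => (flow_line hw f _).1 (h.flow f hf)⟩,
    fun h => ⟨h.cont, h.mem, fun f hf => (flow_line hw f _).2 (h.flow f hf)⟩⟩

/-- the scale function -/
def gw (w : ℝ → ℝ) (x : ℝ) : ℝ := ∫ t in (0 : ℝ)..x, (w t)⁻¹

/-- N1: the Laplacian of `F ∘ g_w` is `F'' (g_w) / w²`. Proof: `g_w` is Lipschitz with `g_w' = 1 / w`
a.e. and `|x| / 2 ≤ |g_w x|`; `Der.of_lip`, `Der.congr`; then the integration by parts
`∫ θ H dx = - ∫ v H' dx` for `Der w v θ` and the Lipschitz function `H = F' ∘ g_w` of compact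
support, `H' = F'' (g_w) / w` a.e. (approximate `v` as in the definition of `Der`, `IsLip.ftc` for
the product), `int_mu`. -/
def S_N1 : Prop := ∀ w : ℝ → ℝ, Weight w → ∀ F : ℝ → ℝ, ContDiff ℝ 2 F → HasCompactSupport F →
  Der w (fun x => F (gw w x)) (fun x => deriv F (gw w x) * (w x)⁻¹) ∧
  MemLp (fun x => deriv (deriv F) (gw w x) * (w x)⁻¹ ^ 2) 2 (mu w) ∧
  ∀ v θ : ℝ → ℝ, Der w v θ →
    ∫ x, θ x * (deriv F (gw w x) * (w x)⁻¹) ∂(mu w) =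
      -∫ x, v x * (deriv (deriv F) (gw w x) * (w x)⁻¹ ^ 2) ∂(mu w)

/-- N2: contraction: `(d/dt) ‖u‖² = 2 ∫ v u = - 2 pairW w (u t) (u t) ≤ 0` -/
def S_N2 : Prop := ∀ w : ℝ → ℝ, Weight w → ∀ (f : ℝ → ℝ) (u : ℝ → ℝ → ℝ), MemLp f 2 (mu w) →
  FlowW w f u → ∀ t, 0 < t → eLpNorm (u t) 2 (mu w) ≤ eLpNorm f 2 (mu w)

/-- N3: the evolution of `∫ u φ dm` for `φ` with the Laplacian `D`: it is differentiable with the
derivative `∫ v φ dm = - pairW w (u t) φ = ∫ u D dm` (`pair_eq`, `der_of_fin`), which is continuous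
in `t > 0` and tends to `∫ f D dm` as `t → 0` -/
def S_N3 : Prop := ∀ w : ℝ → ℝ, Weight w → ∀ (f : ℝ → ℝ) (u : ℝ → ℝ → ℝ), MemLp f 2 (mu w) →
  FlowW w f u → ∀ φ θ D : ℝ → ℝ, Der w φ θ → MemLp D 2 (mu w) →
  (∀ v ϑ : ℝ → ℝ, Der w v ϑ → ∫ x, ϑ x * θ x ∂(mu w) = -∫ x, v x * D x ∂(mu w)) →
  ContinuousOn (fun r : ℝ => ∫ x, u r x * D x ∂(mu w)) (Ioi 0) ∧
  Tendsto (fun r : ℝ => ∫ x, u r x * D x ∂(mu w)) (𝓝[>] 0) (𝓝 (∫ x, f x * D x ∂(mu w))) ∧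
  ∀ t : ℝ, 0 < t → ∫ x, u t x * φ x ∂(mu w) - ∫ x, f x * φ x ∂(mu w) =
    ∫ r in (0 : ℝ)..t, ∫ x, u r x * D x ∂(mu w)

/-! ### existence: the semigroup -/

/-- the function `exp (t (1 - 1 / x))` -/
def ff (t x : ℝ) : ℝ := if 0 < x then Real.exp (t - t / x) else 0

/-- A1: calculus on `[0, 1]` (with `a = 1 / x - 1 ≥ 0`: `ff t x = exp (- t a)`) -/
def S_A1 : Prop :=
  (∀ t, 0 < t → ContinuousOn (ff t) (Icc 0 1) ∧ ContinuousOn (fun x => ff t x / x) (Icc 0 1) ∧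
    ContinuousOn (fun x => ff t x * (1 - 1 / x)) (Icc 0 1)) ∧
  (∀ t, 0 < t → TendstoUniformlyOn (fun (h : ℝ) x => (ff (t + h) x - ff t x) / h)
    (fun x => ff t x * (1 - 1 / x)) (𝓝[≠] 0) (Icc 0 1)) ∧
  (∀ t, 0 < t → TendstoUniformlyOn (fun (s : ℝ) x => ff s x / x) (fun x => ff t x / x) (𝓝 t)
    (Icc 0 1)) ∧
  TendstoUniformlyOn (fun (t : ℝ) x => ff t x * x) (fun x => x) (𝓝[>] 0) (Icc 0 1) ∧
  ∀ t, 0 < t → ∀ x ∈ Icc (0 : ℝ) 1, 0 ≤ ff t x ∧ ff t x ≤ 1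

/-- the heat semigroup of the embedding `J` of the form domain `V` into `H` -/
structure Semi {H V : Type} [NormedAddCommGroup H] [InnerProductSpace ℂ H]
    [NormedAddCommGroup V] [InnerProductSpace ℂ V] (J : V →L[ℂ] H) (P P' : ℝ → H →L[ℂ] H)
    (v : ℝ → H →L[ℂ] V) : Prop where
  fac : ∀ t, 0 < t → ∀ f, J (v t f) = P t f
  sym : ∀ t, 0 < t → ∀ f g, inner ℂ (P t f) g = inner ℂ f (P t g)
  add : ∀ s t, 0 < s → 0 < t → ∀ f, v (s + t) f = v s (P t f)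
  zero : ∀ f, Tendsto (fun t => P t f) (𝓝[>] 0) (𝓝 f)
  der : ∀ t, 0 < t → HasDerivAt P (P' t) t
  cont : ContinuousOn v (Ioi 0)
  weak : ∀ t, 0 < t → ∀ (f : H) (φ : V),
    inner ℂ φ (v t f) - inner ℂ (J φ) (P t f) = -inner ℂ (J φ) (P' t f)

/-- A2: the semigroup. Proof: `B = J J†` is self-adjoint with the spectrum in `[0, 1]` (positive,
norm at most one); `P t = cfc (ff t) B`, `P' t = cfc (fun x => ff t x * (1 - 1 / x)) B`,
`v t = J† ∘ cfc (fun x => ff t x / x) B`; `tendsto_cfc_fun`, `cfc_mul`, `norm_cfc_le`. For `zero`: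
`P t (B g) → B g` by A1, the range of `B` is dense since `ker (J J†) = ker J† = (range J)^⊥ = 0`,
and `‖P t‖ ≤ 1`. -/
def S_A2 : Prop := ∀ (H V : Type) [NormedAddCommGroup H] [InnerProductSpace ℂ H] [CompleteSpace H]
  [NormedAddCommGroup V] [InnerProductSpace ℂ V] [CompleteSpace V] (J : V →L[ℂ] H),
  (∀ x, ‖J x‖ ≤ ‖x‖) → DenseRange J →
  ∃ (P P' : ℝ → H →L[ℂ] H) (v : ℝ → H →L[ℂ] V), Semi J P P' v

/-! ### existence: the Sobolev space -/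

/-- the Hilbert space -/
abbrev H2 (w : ℝ → ℝ) : Type := Lp ℂ 2 (mu w)

/-- its square -/
abbrev HH (w : ℝ → ℝ) : Type := WithLp 2 (H2 w × H2 w)

/-- `g` is the derivative of the complex function `f` -/
def DerC (w : ℝ → ℝ) (f g : ℝ → ℂ) : Prop :=
  Der w (fun x => (f x).re) (fun x => (g x).re) ∧ Der w (fun x => (f x).im) (fun x => (g x).im)

/-- V1: the Sobolev space (the graph of the derivative is closed: diagonal sequence; `Der.add`,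
`Der.smul`) -/
def S_V1 : Prop := ∀ w : ℝ → ℝ, Weight w → ∃ V : Submodule ℂ (HH w), IsClosed (V : Set (HH w)) ∧
  ∀ z : HH w, z ∈ V ↔ DerC w z.fst z.snd

/-- V2: it is dense in `L²` (for example: the orthogonal complement is zero, by
`ae_eq_zero_of_integral_contDiff_smul_eq_zero`; smooth functions of compact support are in the
Sobolev space by `Der.of_lip`) -/
def S_V2 : Prop := ∀ w : ℝ → ℝ, Weight w → ∀ V : Submodule ℂ (HH w),
  (∀ z : HH w, z ∈ V ↔ DerC w z.fst z.snd) → DenseRange fun z : V => (z : HH w).fst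

/-- V3: evaluation of the continuous representative:
`e x z = ∫ s in x..x+1, (z.fst s - (x + 1 - s) * z.snd s)`; for `z ∈ V` this is `z.fst x` for
almost all `x` (`Der.ftc`) and `e x z - e y z = ∫ s in y..x, z.snd s`, so
`‖e x - e y‖ ≤ |x - y| ^ (1 / 2)`. -/
def S_V3 : Prop := ∀ w : ℝ → ℝ, Weight w → ∀ V : Submodule ℂ (HH w),
  (∀ z : HH w, z ∈ V ↔ DerC w z.fst z.snd) →
  ∃ e : ℝ → V →L[ℂ] ℂ, Continuous e ∧ ∀ z : V, ∀ᵐ x, e x z = (z : HH w).fst x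

/-- the class of a real function in the complex Hilbert space -/
def toC {w f : ℝ → ℝ} (hf : MemLp f 2 (mu w)) : H2 w := (hf.ofReal (K := ℂ)).toLp

/-- K1: the kernel: `e x (v t f) = ⟨k t x, f⟩` with `k t x = (v t)† (e x)^* ∈ H2 w` and
`p t x y = Re ⟨k (t/2) x, k (t/2) y⟩`; for `s = t / 2`: `e x (v t f) = e x (v s (P s f)) =
⟨k s x, P s f⟩ = ⟨P s (k s x), f⟩` and `(P s (k s x)) y = e y (v s (k s x)) = ⟨k s y, k s x⟩` a.e. -/
def S_K1 : Prop := ∀ w : ℝ → ℝ, Weight w → ∀ (V : Submodule ℂ (HH w)) [CompleteSpace V]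
  (J : V →L[ℂ] H2 w), (∀ z : V, J z = (z : HH w).fst) →
  ∀ (P P' : ℝ → H2 w →L[ℂ] H2 w) (v : ℝ → H2 w →L[ℂ] V), Semi J P P' v →
  ∀ e : ℝ → V →L[ℂ] ℂ, Continuous e → (∀ z : V, ∀ᵐ x, e x z = (z : HH w).fst x) →
  ∃ p : ℝ → ℝ → ℝ → ℝ, ContinuousOn (fun z : ℝ × ℝ × ℝ => p z.1 z.2.1 z.2.2) {z | 0 < z.1} ∧
    (∀ t, 0 < t → ∀ x, MemLp (p t x) 2 (mu w)) ∧
    ∀ t, 0 < t → ∀ (f : ℝ → ℝ) (hf : MemLp f 2 (mu w)) (x : ℝ),
      ∫ y, p t x y * f y ∂(mu w) = (e x (v t (toC hf))).re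

/-- K2: the heat flow. `u t = Re (v t f).fst` a.e. = `Re (P t f)`, `Der w (u t) (Re (v t f).snd)`,
derivative `Re (P' t f)`, `pair_eq`, and `Semi.weak` for the pair `(φ, φ') ∈ V` -/
def S_K2 : Prop := ∀ w : ℝ → ℝ, Weight w → ∀ V : Submodule ℂ (HH w),
  (∀ z : HH w, z ∈ V ↔ DerC w z.fst z.snd) → ∀ J : V →L[ℂ] H2 w,
  (∀ z : V, J z = (z : HH w).fst) →
  ∀ (P P' : ℝ → H2 w →L[ℂ] H2 w) (v : ℝ → H2 w →L[ℂ] V), Semi J P P' v →
  ∀ e : ℝ → V →L[ℂ] ℂ, (∀ z : V, ∀ᵐ x, e x z = (z : HH w).fst x) →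
  ∀ (f : ℝ → ℝ) (hf : MemLp f 2 (mu w)), FlowW w f fun t x => (e x (v t (toC hf))).re

end

end Run7.h115.HK
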