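import Pool.Agent.Run7.h115.HK.N5b

/-!
# N5: the heat kernels do not converge
-/

set_option linter.style.haveILetI false

open MeasureTheory Filter Topology Set
open scoped ENNReal
open Pool.Agent.N288.MM

namespace Run7.h115.HK

noncomputable section

lemma ker_cont {w : ℝ → ℝ} {p : ℝ → ℝ → ℝ → ℝ} (h : KerW w p) {t : ℝ} (ht : 0 < t) :
    Continuous (Function.uncurry (p t)) := by
  rw [← continuousOn_univ]
  exact h.cont.comp (f := fun z : ℝ × ℝ => (t, z.1, z.2)) (by fun_prop) (fun z _ => ht)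

/-- **N5** -/
theorem t_N5 (hN1 : S_N1) (hN2 : S_N2) (hN3 : S_N3) (hC : S_C) {w : ℕ → ℝ → ℝ} (hw : Osc w)
    {p : ℕ → ℝ → ℝ → ℝ → ℝ} {q : ℝ → ℝ → ℝ → ℝ} (hp : ∀ N, KerW (w N) (p N)) (hq : KerW wI q) :
    ¬ ∀ t : ℝ, 0 < t → ∀ (x y : ℕ → ℝ) (x₀ y₀ : ℝ), Tendsto x atTop (𝓝 x₀) →
      Tendsto y atTop (𝓝 y₀) → Tendsto (fun N => p N t (x N) (y N)) atTop (𝓝 (q t x₀ y₀)) := by
  intro hconv
  obtain ⟨F, hF, hc, x1, hx1⟩ := exists_test
  have hF0 : Continuous F := hF.continuous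
  have hd1 : ContDiff ℝ 3 (deriv F) := by
    have : ContDiff ℝ (3 + 1) F := hF
    exact (contDiff_succ_iff_deriv.1 this).2.2
  have hd2 : ContDiff ℝ 2 (deriv (deriv F)) := by
    have : ContDiff ℝ (2 + 1) (deriv F) := hd1
    exact (contDiff_succ_iff_deriv.1 this).2.2
  have hF2c : HasCompactSupport (deriv (deriv F)) := hc.deriv.deriv
  have hF2 : Continuous (deriv (deriv F)) := hd2.continuous
  obtain ⟨R, hR0, hR, hR'⟩ := comp_zero hF2c
  obtain ⟨M, hM⟩ := hF2c.exists_bound_of_continuous hF2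
  obtain ⟨φ, hφdef⟩ : ∃ φ : ℝ → ℝ, φ = fun x => deriv (deriv F) (3 / 4 * x) := ⟨_, rfl⟩
  have hφx : ∀ x, φ x = deriv (deriv F) (3 / 4 * x) := fun x => by rw [hφdef]
  have hφ : Continuous φ := by rw [hφdef]; exact hF2.comp (by fun_prop)
  have hφc : HasCompactSupport φ := by
    refine HasCompactSupport.intro (isCompact_Icc (a := -R) (b := R)) fun x hx => ?_
    rw [hφx]
    refine hR' x ?_
    by_contra hcon
    exact hx (abs_le.1 (not_lt.1 hcon))
  have hφL : MemLp φ 2 volume := hφ.memLp_of_hasCompactSupport hφc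
  -- the flows
  obtain ⟨uN, huN⟩ : ∃ uN : ℕ → ℝ → ℝ → ℝ,
    uN = fun N t x => ∫ y, p N t x y * φ y ∂(mu (w N)) := ⟨_, rfl⟩
  obtain ⟨u, hu⟩ : ∃ u : ℝ → ℝ → ℝ, u = fun t x => ∫ y, q t x y * φ y ∂(mu wI) := ⟨_, rfl⟩
  have flN : ∀ N, FlowW (w N) φ (uN N) := by
    intro N
    rw [huN]
    exact (hp N).flow φ (memLp_mu (hw.wt N) hφL)
  have fl : FlowW wI φ u := by
    rw [hu]
    exact hq.flow φ (memLp_mu wI_weight hφL)
  -- convergence at fixed times
  have cN : ∀ t, 0 < t → ∀ N, Continuous (uN N t) := by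
    intro t ht N
    rw [huN]
    exact cont_param (hw.wt N) (ker_cont (hp N) ht) hφ hφc
  have cu : ∀ t, 0 < t → Continuous (u t) := by
    intro t ht
    rw [hu]
    exact cont_param wI_weight (ker_cont hq ht) hφ hφc
  have hlim : ∀ t, 0 < t → ∀ (x : ℕ → ℝ) (x₀ : ℝ), Tendsto x atTop (𝓝 x₀) →
      Tendsto (fun N => uN N t (x N)) atTop (𝓝 (u t x₀)) := by
    intro t ht x x₀ hx
    rw [huN, hu]
    exact lim_in hw hC (K := fun N => p N t) (k := q t) (fun N => ker_cont (hp N) ht)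
      (ker_cont hq ht) (fun x y x₀ y₀ h1 h2 => hconv t ht x y x₀ y₀ h1 h2) hφ hφc hx
  -- the evolution
  have ev : ∀ N, ContinuousOn (fun r : ℝ => ∫ x, uN N r x *
      (deriv (deriv F) (gw (w N) x) * (w N x)⁻¹ ^ 2) ∂(mu (w N))) (Ioi 0) ∧
      ∀ t : ℝ, 0 < t → ∫ x, uN N t x * F (gw (w N) x) ∂(mu (w N)) -
        ∫ x, φ x * F (gw (w N) x) ∂(mu (w N)) =
        ∫ r in (0 : ℝ)..t, ∫ x, uN N r x *
          (deriv (deriv F) (gw (w N) x) * (w N x)⁻¹ ^ 2) ∂(mu (w N)) := by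
    intro N
    obtain ⟨d1, d2, d3⟩ := hN1 (w N) (hw.wt N) F (hF.of_le (by norm_num)) hc
    obtain ⟨e1, -, e3⟩ := hN3 (w N) (hw.wt N) φ (uN N) (memLp_mu (hw.wt N) hφL) (flN N)
      (fun x => F (gw (w N) x)) _ _ d1 d2 d3
    exact ⟨e1, e3⟩
  -- the limit of the evolution
  have mem2 : ∀ N, MemLp (fun x => deriv (deriv F) (gw (w N) x) * (w N x)⁻¹ ^ 2) 2 (mu (w N)) :=
    fun N => (hN1 (w N) (hw.wt N) F (hF.of_le (by norm_num)) hc).2.1
  have hbd : ∀ N r, 0 < r → |∫ x, uN N r x *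
      (deriv (deriv F) (gw (w N) x) * (w N x)⁻¹ ^ 2) ∂(mu (w N))| ≤
      2 * (∫ x, φ x ^ 2) + 4 * R * M ^ 2 := by
    intro N r hr
    refine bound_pair hN2 (hw.wt N) hφL (flN N) (mem2 N) (fun x => ?_) (fun x hx => ?_) hR0.le hr
    · rw [abs_mul]
      have h1 := hM (gw (w N) x)
      rw [Real.norm_eq_abs] at h1
      have h2 := inv_bd (hw.wt N) x
      have h3 : |(w N x)⁻¹ ^ 2| ≤ 1 := by
        rw [abs_of_nonneg (sq_nonneg _)]
        exact pow_le_one₀ (by linarith [h2.1]) h2.2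
      calc _ ≤ M * 1 := mul_le_mul h1 h3 (abs_nonneg _) ((abs_nonneg _).trans h1)
        _ = M := mul_one M
    · rw [hR (w N) (hw.wt N) x hx, zero_mul]
  have limev : ∀ t : ℝ, 0 < t → ∫ x, u t x * F (3 / 4 * x) ∂(mu wI) -
      ∫ x, φ x * F (3 / 4 * x) ∂(mu wI) =
      ∫ r in (0 : ℝ)..t, 3 / 4 * ∫ x, u r x * deriv (deriv F) (3 / 4 * x) := by
    intro t ht
    have l1 := (lim_out hw hC (cN t ht) (cu t ht) (hlim t ht) hF0 hc).1
    have l2 := (lim_out hw hC (ψ := fun _ => φ) (fun _ => hφ) hφ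
      (fun x x₀ hx => (hφ.tendsto x₀).comp hx) hF0 hc).1
    have l3 : Tendsto (fun N => ∫ r in (0 : ℝ)..t, ∫ x, uN N r x *
        (deriv (deriv F) (gw (w N) x) * (w N x)⁻¹ ^ 2) ∂(mu (w N))) atTop
        (𝓝 (∫ r in (0 : ℝ)..t, 3 / 4 * ∫ x, u r x * deriv (deriv F) (3 / 4 * x))) := by
      refine intervalIntegral.tendsto_integral_filter_of_dominated_convergence
        (fun _ => 2 * (∫ x, φ x ^ 2) + 4 * R * M ^ 2) (Eventually.of_forall fun N => ?_)
        (Eventually.of_forall fun N => Eventually.of_forall fun r hr => ?_) (by simp)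
        (Eventually.of_forall fun r hr => ?_)
      · rw [uIoc_of_le ht.le]
        exact ((ev N).1.mono Ioc_subset_Ioi_self).aestronglyMeasurable measurableSet_Ioc
      · rw [uIoc_of_le ht.le] at hr
        rw [Real.norm_eq_abs]
        exact hbd N r hr.1
      · rw [uIoc_of_le ht.le] at hr
        exact (lim_out hw hC (cN r hr.1) (cu r hr.1) (hlim r hr.1) hF2 hF2c).2
    refine tendsto_nhds_unique (l1.sub l2) (l3.congr fun N => ?_)
    exact ((ev N).2 t ht).symm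
  -- the evolution of the limit space
  have hG : ContDiff ℝ 2 (fun s => F (9 / 8 * s)) :=
    (hF.of_le (by norm_num)).comp (contDiff_const.mul contDiff_id)
  have hGc : HasCompactSupport (fun s => F (9 / 8 * s)) :=
    hc.comp_homeomorph (Homeomorph.mulLeft₀ (9 / 8 : ℝ) (by norm_num))
  have hdF : ∀ x, HasDerivAt F (deriv F x) x := fun x =>
    (hF.differentiable (by norm_num) x).hasDerivAt
  have hddF : ∀ x, HasDerivAt (deriv F) (deriv (deriv F) x) x := fun x =>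
    (hd1.differentiable (by norm_num) x).hasDerivAt
  have g1 : deriv (fun s => F (9 / 8 * s)) = fun s => 9 / 8 * deriv F (9 / 8 * s) := by
    funext s
    have h1 : HasDerivAt (fun s : ℝ => 9 / 8 * s) (9 / 8) s := by
      simpa using (hasDerivAt_id s).const_mul (9 / 8 : ℝ)
    have := (hdF (9 / 8 * s)).comp s h1
    have e : deriv (fun s => F (9 / 8 * s)) s = _ := this.deriv
    rw [e]
    ring
  have g2 : deriv (deriv fun s => F (9 / 8 * s)) = fun s => 81 / 64 * deriv (deriv F) (9 / 8 * s) := by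
    rw [g1]
    funext s
    have h1 : HasDerivAt (fun s : ℝ => 9 / 8 * s) (9 / 8) s := by
      simpa using (hasDerivAt_id s).const_mul (9 / 8 : ℝ)
    have := ((hddF (9 / 8 * s)).comp s h1).const_mul (9 / 8 : ℝ)
    have e : deriv (fun s => 9 / 8 * deriv F (9 / 8 * s)) s = _ := this.deriv
    rw [e]
    ring
  obtain ⟨d1, d2, d3⟩ := hN1 wI wI_weight (fun s => F (9 / 8 * s)) hG hGc
  obtain ⟨e1, e2, e3⟩ := hN3 wI wI_weight φ u (memLp_mu wI_weight hφL) fl _ _ _ d1 d2 d3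
  have eD : ∀ x, deriv (deriv fun s => F (9 / 8 * s)) (gw wI x) * (wI x)⁻¹ ^ 2 =
      9 / 16 * deriv (deriv F) (3 / 4 * x) := by
    intro x
    rw [g2, gw_wI]
    show 81 / 64 * deriv (deriv F) (9 / 8 * (2 / 3 * x)) * ((3 : ℝ) / 2)⁻¹ ^ 2 = _
    rw [show (9 : ℝ) / 8 * (2 / 3 * x) = 3 / 4 * x by ring]
    ring
  have eC : ∀ f : ℝ → ℝ, ∫ x, f x * (deriv (deriv fun s => F (9 / 8 * s)) (gw wI x) *
      (wI x)⁻¹ ^ 2) ∂(mu wI) = 27 / 32 * ∫ x, f x * deriv (deriv F) (3 / 4 * x) := by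
    intro f
    rw [wI_int, ← integral_const_mul]
    refine integral_congr_ae (Eventually.of_forall fun x => ?_)
    show f x * (deriv (deriv fun s => F (9 / 8 * s)) (gw wI x) * (wI x)⁻¹ ^ 2) * (3 / 2) = _
    rw [eD]
    ring
  have eF : ∀ x, F (9 / 8 * gw wI x) = F (3 / 4 * x) := by
    intro x
    rw [gw_wI]
    congr 1
    ring
  simp only [eC, eF] at e1 e2 e3
  obtain ⟨c, hcdef⟩ : ∃ c : ℝ → ℝ, c = fun r => ∫ x, u r x * deriv (deriv F) (3 / 4 * x) :=
    ⟨_, rfl⟩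
  have hcr : ∀ r, ∫ x, u r x * deriv (deriv F) (3 / 4 * x) = c r := fun r => by rw [hcdef]
  simp only [hcr] at e1 e2 e3 limev
  -- the integral of `c` vanishes
  have hzero : ∀ t : ℝ, 0 < t → ∫ r in (0 : ℝ)..t, c r = 0 := by
    intro t ht
    have h1 := (limev t ht).symm.trans (e3 t ht)
    rw [intervalIntegral.integral_const_mul, intervalIntegral.integral_const_mul] at h1
    linarith
  -- the value at zero
  obtain ⟨L, hL⟩ : ∃ L, L = ∫ x, φ x * deriv (deriv F) (3 / 4 * x) := ⟨_, rfl⟩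
  rw [← hL] at e2
  have hLpos : 0 < L := by
    have h1 : 0 < ∫ x, φ x ^ 2 := by
      refine Continuous.integral_pos_of_hasCompactSupport_nonneg_nonzero (x := 4 / 3 * x1)
        (hφ.pow 2) ?_ (fun x => sq_nonneg _) ?_
      · refine HasCompactSupport.intro (isCompact_Icc (a := -R) (b := R)) fun x hx => ?_
        show φ x ^ 2 = 0
        rw [hφx, hR' x]
        · ring
        · by_contra hcon
          exact hx (abs_le.1 (not_lt.1 hcon))
      · show φ (4 / 3 * x1) ^ 2 ≠ 0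
        refine pow_ne_zero 2 ?_
        rw [hφx, show (3 : ℝ) / 4 * (4 / 3 * x1) = x1 by ring]
        exact hx1
    rw [hL]
    refine lt_of_lt_of_eq h1 (integral_congr_ae (Eventually.of_forall fun x => ?_))
    show φ x ^ 2 = φ x * deriv (deriv F) (3 / 4 * x)
    rw [← hφx]
    ring
  have e2' : Tendsto c (𝓝[>] 0) (𝓝 L) := by
    have h1 := e2.const_mul (32 / 27 : ℝ)
    have h2 : (32 / 27 : ℝ) * (27 / 32 * L) = L := by ring
    rw [h2] at h1
    refine h1.congr fun r => ?_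
    ring
  have e1' : ContinuousOn c (Ioi 0) := by
    have h1 := e1.const_smul (32 / 27 : ℝ)
    refine h1.congr fun r _ => ?_
    show c r = (32 / 27 : ℝ) • (27 / 32 * c r)
    rw [smul_eq_mul]
    ring
  have hev : ∀ᶠ r in 𝓝[>] (0 : ℝ), c r ∈ Ioo (L / 2) (2 * L) :=
    e2'.eventually (Ioo_mem_nhds (by linarith) (by linarith))
  obtain ⟨δ, hδ, hδ'⟩ := mem_nhdsGT_iff_exists_Ioc_subset.1 hev
  have hδ0 : 0 < δ := hδ
  have hint : IntervalIntegrable c volume 0 δ := by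
    rw [intervalIntegrable_iff_integrableOn_Ioc_of_le hδ0.le]
    refine Integrable.of_bound
      ((e1'.mono Ioc_subset_Ioi_self).aestronglyMeasurable measurableSet_Ioc) (2 * L) ?_
    rw [ae_restrict_iff' measurableSet_Ioc]
    refine Eventually.of_forall fun r hr => ?_
    have h1 := hδ' hr
    have h2 : L / 2 < c r ∧ c r < 2 * L := h1
    rw [Real.norm_eq_abs, abs_of_pos (by linarith [h2.1])]
    exact h2.2.le
  have hge : ∫ _ in (0 : ℝ)..δ, L / 2 ≤ ∫ r in (0 : ℝ)..δ, c r := by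
    refine intervalIntegral.integral_mono_on_of_le_Ioo hδ0.le (by simp) hint fun r hr => ?_
    have h1 := hδ' ⟨hr.1, hr.2.le⟩
    have h2 : L / 2 < c r ∧ c r < 2 * L := h1
    exact h2.1.le
  rw [hzero δ hδ0, intervalIntegral.integral_const, smul_eq_mul, sub_zero] at hge
  nlinarith

end

end Run7.h115.HK
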