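import Pool.Agent.Run7.h115.HK.Iface

/-!
# N5: preparations
-/

open MeasureTheory Filter Topology Set
open scoped ENNReal
open Pool.Agent.N288.MM

namespace Run7.h115.HK

noncomputable section

variable {w : ℝ → ℝ}

lemma inv_bd (hw : Weight w) (x : ℝ) : 1 / 2 ≤ (w x)⁻¹ ∧ (w x)⁻¹ ≤ 1 := by
  have h1 := hw.one_le x
  have h2 := hw.le_two x
  constructor
  · rw [one_div]
    exact inv_anti₀ (by linarith) h2
  · exact inv_le_one_of_one_le₀ h1

lemma inv_iint (hw : Weight w) (a b : ℝ) :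
    IntervalIntegrable (fun t => (w t)⁻¹) volume a b := by
  refine (intervalIntegrable_const (c := (1 : ℝ))).mono_fun ?_ ?_
  · exact hw.meas.inv.aestronglyMeasurable
  · refine Eventually.of_forall fun x => ?_
    have := inv_bd hw x
    show |(w x)⁻¹| ≤ |(1 : ℝ)|
    rw [abs_of_nonneg (by linarith [this.1]), abs_one]
    exact this.2

lemma w_iint (hw : Weight w) (a b : ℝ) : IntervalIntegrable w volume a b := by
  refine (intervalIntegrable_const (c := (2 : ℝ))).mono_fun ?_ ?_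
  · exact hw.meas.aestronglyMeasurable
  · refine Eventually.of_forall fun x => ?_
    have h1 := hw.one_le x
    have h2 := hw.le_two x
    show |w x| ≤ |(2 : ℝ)|
    rw [abs_of_nonneg (by linarith), abs_two]
    exact h2

lemma gw_cont (hw : Weight w) : Continuous (gw w) :=
  intervalIntegral.continuous_primitive (fun a b => inv_iint hw a b) 0

lemma gw_nonneg (hw : Weight w) {x : ℝ} (hx : 0 ≤ x) : x / 2 ≤ gw w x := by
  unfold gw
  have h1 : ∫ _ in (0 : ℝ)..x, (1 / 2 : ℝ) = x / 2 := by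
    rw [intervalIntegral.integral_const]; simp; ring
  rw [← h1]
  exact intervalIntegral.integral_mono_on hx (by simp) (inv_iint hw 0 x)
    fun t _ => (inv_bd hw t).1

lemma gw_nonpos (hw : Weight w) {x : ℝ} (hx : x ≤ 0) : gw w x ≤ x / 2 := by
  unfold gw
  rw [intervalIntegral.integral_symm]
  have h1 : ∫ _ in x..(0 : ℝ), (1 / 2 : ℝ) = -(x / 2) := by
    rw [intervalIntegral.integral_const]; simp; ring
  have h2 : -(x / 2) ≤ ∫ t in x..(0 : ℝ), (w t)⁻¹ := by
    rw [← h1]
    exact intervalIntegral.integral_mono_on hx (by simp) (inv_iint hw x 0)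
      fun t _ => (inv_bd hw t).1
  linarith

lemma abs_gw (hw : Weight w) (x : ℝ) : |x| / 2 ≤ |gw w x| := by
  rcases le_total 0 x with h | h
  · have := gw_nonneg hw h
    rw [abs_of_nonneg h]
    exact this.trans (le_abs_self _)
  · have := gw_nonpos hw h
    rw [abs_of_nonpos h]
    have h2 := neg_abs_le (gw w x)
    linarith

lemma gw_osc {w : ℕ → ℝ → ℝ} (hw : Osc w) (N : ℕ) (x : ℝ) :
    |gw (w N) x - 3 / 4 * x| ≤ 1 / ((N : ℝ) + 1) := by
  have e1 : gw (w N) x = ∫ t in (0 : ℝ)..x, (3 - w N t) / 2 := by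
    unfold gw
    refine intervalIntegral.integral_congr_ae ?_
    filter_upwards [hw.inv N] with t ht _ using ht
  have e2 : ∫ t in (0 : ℝ)..x, (3 - w N t) / 2 =
      3 / 4 * x - 1 / 2 * ∫ t in (0 : ℝ)..x, (w N t - 3 / 2) := by
    have i1 := w_iint (hw.wt N) 0 x
    have h1 : (fun t => (3 - w N t) / 2) = fun t => 3 / 4 - 1 / 2 * (w N t - 3 / 2) := by
      funext t; ring
    rw [h1, intervalIntegral.integral_sub (by simp) ((i1.sub (by simp)).const_mul _),
      intervalIntegral.integral_const, intervalIntegral.integral_const_mul]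
    simp
    ring
  rw [e1, e2]
  have h3 := hw.osc N 0 x
  have h4 : 3 / 4 * x - 1 / 2 * (∫ t in (0 : ℝ)..x, (w N t - 3 / 2)) - 3 / 4 * x =
      -(1 / 2 * ∫ t in (0 : ℝ)..x, (w N t - 3 / 2)) := by ring
  rw [h4, abs_neg, abs_mul, abs_of_pos (by norm_num : (0 : ℝ) < 1 / 2)]
  have h5 : 0 ≤ |∫ t in (0 : ℝ)..x, (w N t - 3 / 2)| := abs_nonneg _
  linarith

lemma gw_tendsto {w : ℕ → ℝ → ℝ} (hw : Osc w) {x : ℕ → ℝ} {x₀ : ℝ}
    (hx : Tendsto x atTop (𝓝 x₀)) :
    Tendsto (fun N => gw (w N) (x N)) atTop (𝓝 (3 / 4 * x₀)) := by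
  have h1 : Tendsto (fun N => gw (w N) (x N) - 3 / 4 * x N) atTop (𝓝 0) := by
    refine squeeze_zero_norm (fun N => ?_) tendsto_one_div_add_atTop_nhds_zero_nat
    exact gw_osc hw N (x N)
  have h2 := h1.add (hx.const_mul (3 / 4))
  simpa using h2

lemma gw_wI (x : ℝ) : gw wI x = 2 / 3 * x := by
  unfold gw wI
  rw [intervalIntegral.integral_const]
  simp
  ring

/-- a compactly supported function of the scale function vanishes far away -/
lemma comp_zero {F : ℝ → ℝ} (hF : HasCompactSupport F) :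
    ∃ R : ℝ, 0 < R ∧ (∀ w : ℝ → ℝ, Weight w → ∀ x, R < |x| → F (gw w x) = 0) ∧
      ∀ x, R < |x| → F (3 / 4 * x) = 0 := by
  obtain ⟨r, hr⟩ := hF.isCompact.isBounded.subset_closedBall 0
  have h0 : ∀ y, r < |y| → F y = 0 := by
    intro y hy
    by_contra hne
    have := hr (subset_tsupport _ (Function.mem_support.2 hne))
    rw [mem_closedBall_zero_iff, Real.norm_eq_abs] at this
    linarith
  refine ⟨max 1 (2 * r), by positivity, fun w hw x hx => h0 _ ?_, fun x hx => h0 _ ?_⟩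
  · have h1 := abs_gw hw x
    have h2 := (le_max_right 1 (2 * r)).trans_lt hx
    linarith
  · rw [abs_mul, abs_of_pos (by norm_num : (0 : ℝ) < 3 / 4)]
    have h2 := (le_max_right 1 (2 * r)).trans_lt hx
    have h3 := (le_max_left 1 (2 * r)).trans_lt hx
    linarith

/-- the test function -/
lemma exists_test : ∃ F : ℝ → ℝ, ContDiff ℝ 4 F ∧ HasCompactSupport F ∧
    ∃ x, deriv (deriv F) x ≠ 0 := by
  let B : ContDiffBump (0 : ℝ) := ⟨1, 2, by norm_num, by norm_num⟩
  refine ⟨B, B.contDiff, B.hasCompactSupport, ?_⟩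
  by_contra! h
  have hd : ContDiff ℝ 1 (deriv (B : ℝ → ℝ)) := by
    have : ContDiff ℝ (1 + 1) (B : ℝ → ℝ) := B.contDiff
    exact (contDiff_succ_iff_deriv.1 this).2.2
  have h1 : ∀ x, deriv (B : ℝ → ℝ) x = 0 := by
    intro x
    have c1 := is_const_of_deriv_eq_zero (hd.differentiable (by norm_num)) h x 5
    rw [c1]
    have hz : (B : ℝ → ℝ) =ᶠ[𝓝 5] fun _ => 0 := by
      filter_upwards [Ioi_mem_nhds (show (2 : ℝ) < 5 by norm_num)] with y hy
      apply B.zero_of_le_dist
      rw [Real.dist_eq, sub_zero]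
      exact (le_of_lt hy).trans (le_abs_self _)
    rw [hz.deriv_eq]
    simp
  have c2 := is_const_of_deriv_eq_zero
    ((B.contDiff (n := 1)).differentiable (by norm_num)) h1 0 5
  have z1 : (B : ℝ → ℝ) 0 = 1 := B.one_of_mem_closedBall (by simp [B])
  have z2 : (B : ℝ → ℝ) 5 = 0 := by
    apply B.zero_of_le_dist
    rw [Real.dist_eq, sub_zero, abs_of_pos (by norm_num)]
    show (2 : ℝ) ≤ 5
    norm_num
  rw [z1, z2] at c2
  exact one_ne_zero c2

end

end Run7.h115.HK
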