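import Pool.Agent.Run7.h115.HK.N5a

/-!
# N5: limits at a fixed time
-/

open MeasureTheory Filter Topology Set
open scoped ENNReal
open Pool.Agent.N288.MM

namespace Run7.h115.HK

noncomputable section

instance mu_lf {w : ℝ → ℝ} [hw : Fact (Weight w)] : IsFiniteMeasureOnCompacts (mu w) := by
  refine ⟨fun K hK => lt_of_le_of_lt (le_vol hw.out K) ?_⟩
  simp only [Measure.smul_apply, smul_eq_mul]
  exact ENNReal.mul_lt_top (by simp) hK.measure_lt_top

lemma wI_int (f : ℝ → ℝ) : ∫ x, f x ∂(mu wI) = ∫ x, f x * (3 / 2) := by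
  rw [int_mu wI_weight]
  refine integral_congr_ae (Eventually.of_forall fun x => ?_)
  show wI x * f x = f x * (3 / 2)
  unfold wI
  ring

/-- the integral against a compactly supported function is continuous in the parameter -/
lemma cont_param {w : ℝ → ℝ} (hw : Weight w) {K : ℝ → ℝ → ℝ} (hK : Continuous (Function.uncurry K))
    {φ : ℝ → ℝ} (hφ : Continuous φ) (hc : HasCompactSupport φ) :
    Continuous fun x => ∫ y, K x y * φ y ∂(mu w) := by
  haveI : Fact (Weight w) := ⟨hw⟩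
  have h1 : (fun x => ∫ y, K x y * φ y ∂(mu w)) =
      fun x => ∫ y in tsupport φ, K x y * φ y ∂(mu w) := by
    funext x
    refine (setIntegral_eq_integral_of_forall_compl_eq_zero fun y hy => ?_).symm
    rw [image_eq_zero_of_notMem_tsupport hy, mul_zero]
  rw [h1]
  refine continuous_parametric_integral_of_continuous (f := fun x y => K x y * φ y) ?_ hc
  exact hK.mul (hφ.comp continuous_snd)

section lim

variable {w : ℕ → ℝ → ℝ} (hw : Osc w) (hC : S_C)

include hw hC

/-- the convergence of `∫ K N x_N y φ y dm_N(y)` -/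
lemma lim_in {K : ℕ → ℝ → ℝ → ℝ} {k : ℝ → ℝ → ℝ} (hK : ∀ N, Continuous (Function.uncurry (K N)))
    (hk : Continuous (Function.uncurry k))
    (hKk : ∀ (x y : ℕ → ℝ) (x₀ y₀ : ℝ), Tendsto x atTop (𝓝 x₀) → Tendsto y atTop (𝓝 y₀) →
      Tendsto (fun N => K N (x N) (y N)) atTop (𝓝 (k x₀ y₀)))
    {φ : ℝ → ℝ} (hφ : Continuous φ) (hc : HasCompactSupport φ) {x : ℕ → ℝ} {x₀ : ℝ}
    (hx : Tendsto x atTop (𝓝 x₀)) :
    Tendsto (fun N => ∫ y, K N (x N) y * φ y ∂(mu (w N))) atTop
      (𝓝 (∫ y, k x₀ y * φ y ∂(mu wI))) := by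
  obtain ⟨r, hr⟩ := hc.isCompact.isBounded.subset_closedBall 0
  have h0 : ∀ y, r < |y| → φ y = 0 := by
    intro y hy
    by_contra hne
    have := hr (subset_tsupport _ (Function.mem_support.2 hne))
    rw [mem_closedBall_zero_iff, Real.norm_eq_abs] at this
    linarith
  have h1 := (hC w hw (fun N y => K N (x N) y * φ y) (fun y => k x₀ y * φ y)
    (fun N => ((hK N).comp (by fun_prop : Continuous fun y => (x N, y))).mul hφ)
    ((hk.comp (by fun_prop : Continuous fun y => (x₀, y))).mul hφ)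
    (fun y y₀ hy => (hKk x y x₀ y₀ hx hy).mul ((hφ.tendsto y₀).comp hy)) r
    (fun N y hy => by rw [h0 y hy, mul_zero])).1
  rw [wI_int]
  refine h1.congr fun N => ?_
  rw [int_mu (hw.wt N)]
  refine integral_congr_ae (Eventually.of_forall fun y => ?_)
  show K N (x N) y * φ y * w N y = w N y * (K N (x N) y * φ y)
  ring

/-- the convergence of `∫ ψ_N F(g_N) dm_N` and `∫ ψ_N F(g_N) / w_N² dm_N` -/
lemma lim_out {ψ : ℕ → ℝ → ℝ} {ψ₀ : ℝ → ℝ} (hψ : ∀ N, Continuous (ψ N)) (hψ₀ : Continuous ψ₀)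
    (hlim : ∀ (x : ℕ → ℝ) (x₀ : ℝ), Tendsto x atTop (𝓝 x₀) →
      Tendsto (fun N => ψ N (x N)) atTop (𝓝 (ψ₀ x₀)))
    {F : ℝ → ℝ} (hF : Continuous F) (hc : HasCompactSupport F) :
    Tendsto (fun N => ∫ x, ψ N x * F (gw (w N) x) ∂(mu (w N))) atTop
      (𝓝 (∫ x, ψ₀ x * F (3 / 4 * x) ∂(mu wI))) ∧
    Tendsto (fun N => ∫ x, ψ N x * (F (gw (w N) x) * (w N x)⁻¹ ^ 2) ∂(mu (w N))) atTop
      (𝓝 (3 / 4 * ∫ x, ψ₀ x * F (3 / 4 * x))) := by
  obtain ⟨R, -, hR, hR'⟩ := comp_zero hc
  have h1 := hC w hw (fun N x => ψ N x * F (gw (w N) x)) (fun x => ψ₀ x * F (3 / 4 * x))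
    (fun N => (hψ N).mul (hF.comp (gw_cont (hw.wt N))))
    (hψ₀.mul (hF.comp (by fun_prop)))
    (fun x x₀ hx => (hlim x x₀ hx).mul ((hF.tendsto _).comp (gw_tendsto hw hx))) R
    (fun N x hx => by rw [hR (w N) (hw.wt N) x hx, mul_zero])
  constructor
  · rw [wI_int]
    refine h1.1.congr fun N => ?_
    rw [int_mu (hw.wt N)]
    refine integral_congr_ae (Eventually.of_forall fun x => ?_)
    show ψ N x * F (gw (w N) x) * w N x = w N x * (ψ N x * F (gw (w N) x))
    ring
  · have e1 : ∫ x, ψ₀ x * F (3 / 4 * x) * (3 / 4) = 3 / 4 * ∫ x, ψ₀ x * F (3 / 4 * x) := by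
      rw [integral_mul_const, mul_comm]
    rw [← e1]
    refine h1.2.congr fun N => ?_
    rw [int_mu (hw.wt N)]
    refine integral_congr_ae (Eventually.of_forall fun x => ?_)
    have hne : w N x ≠ 0 := by
      have := (hw.wt N).one_le x
      positivity
    show ψ N x * F (gw (w N) x) * (w N x)⁻¹ =
      w N x * (ψ N x * (F (gw (w N) x) * (w N x)⁻¹ ^ 2))
    field_simp

end lim

/-- a uniform bound -/
lemma bound_pair (hN2 : S_N2) {w : ℝ → ℝ} (hw : Weight w) {f : ℝ → ℝ} {u : ℝ → ℝ → ℝ}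
    (hf : MemLp f 2 volume) (hu : FlowW w f u) {D : ℝ → ℝ} (hD : MemLp D 2 (mu w)) {M R : ℝ}
    (hM : ∀ x, |D x| ≤ M) (hR : ∀ x, R < |x| → D x = 0) (hR0 : 0 ≤ R) {t : ℝ} (ht : 0 < t) :
    |∫ x, u t x * D x ∂(mu w)| ≤ 2 * (∫ x, f x ^ 2) + 4 * R * M ^ 2 := by
  have hfw : MemLp f 2 (mu w) := memLp_mu hw hf
  have hut := (hu.mem t ht).1
  have i1 := hut.integrable_sq
  have i2 := hD.integrable_sq
  have h1 : |∫ x, u t x * D x ∂(mu w)| ≤ ∫ x, (u t x ^ 2 + D x ^ 2) ∂(mu w) := by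
    rw [← Real.norm_eq_abs]
    refine norm_integral_le_of_norm_le (i1.add i2) (Eventually.of_forall fun x => ?_)
    rw [Real.norm_eq_abs, abs_le]
    constructor <;> nlinarith [sq_nonneg (u t x + D x), sq_nonneg (u t x - D x),
      sq_nonneg (u t x), sq_nonneg (D x)]
  rw [integral_add i1 i2] at h1
  have h2 : ∫ x, u t x ^ 2 ∂(mu w) ≤ ∫ x, f x ^ 2 ∂(mu w) := by
    rw [← Q_toReal hut.1.aemeasurable, ← Q_toReal hfw.1.aemeasurable]
    refine ENNReal.toReal_mono (Q_lt_top hfw).ne ?_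
    rw [← eLpNorm_sq', ← eLpNorm_sq']
    exact pow_le_pow_left' (hN2 w hw f u hfw hu t ht) 2
  have h3 : ∫ x, f x ^ 2 ∂(mu w) ≤ 2 * ∫ x, f x ^ 2 := by
    rw [int_mu hw, ← integral_const_mul]
    refine integral_mono_of_nonneg (Eventually.of_forall fun x => ?_)
      (hf.integrable_sq.const_mul 2) (Eventually.of_forall fun x => ?_)
    · have := hw.one_le x
      show 0 ≤ w x * f x ^ 2
      positivity
    · have := hw.le_two x
      show w x * f x ^ 2 ≤ 2 * f x ^ 2
      nlinarith [sq_nonneg (f x)]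
  have h4 : ∫ x, D x ^ 2 ∂(mu w) ≤ 4 * R * M ^ 2 := by
    rw [int_mu hw]
    have h5 : ∫ x, w x * D x ^ 2 ≤ ∫ x, (Icc (-R) R).indicator (fun _ => 2 * M ^ 2) x := by
      refine integral_mono_of_nonneg (Eventually.of_forall fun x => ?_) ?_
        (Eventually.of_forall fun x => ?_)
      · have := hw.one_le x
        show 0 ≤ w x * D x ^ 2
        positivity
      · rw [integrable_indicator_iff measurableSet_Icc]
        exact integrableOn_const (by simp)
      · show w x * D x ^ 2 ≤ (Icc (-R) R).indicator (fun _ => 2 * M ^ 2) x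
        by_cases hx : x ∈ Icc (-R) R
        · rw [indicator_of_mem hx]
          have h6 := hw.le_two x
          have h7 := hw.one_le x
          have h8 : D x ^ 2 ≤ M ^ 2 := sq_le_sq' (by linarith [neg_abs_le (D x), hM x])
            (by linarith [le_abs_self (D x), hM x])
          nlinarith [sq_nonneg (D x)]
        · rw [indicator_of_notMem hx]
          have : R < |x| := by
            by_contra hcon
            exact hx (abs_le.1 (not_lt.1 hcon))
          rw [hR x this]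
          simp
    refine h5.trans (le_of_eq ?_)
    rw [integral_indicator measurableSet_Icc, setIntegral_const]
    simp only [Measure.real, Real.volume_Icc, smul_eq_mul]
    rw [ENNReal.toReal_ofReal (by linarith)]
    ring
  linarith

end

end Run7.h115.HK
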